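import Pool.Agent.Lib.MP_eee7a8_ag.TB.Iface3

/-!
# Module NCLG: hyperbolic elements produced by the rules do not cross `e`

The intersection point of two crossing geodesics is a positive definite form `B`; the translates of
`e` do not separate `B` from its images by the elements which are used.
-/

set_option linter.all false

open Matrix

namespace Pool.Agent.Lib.MP_eee7a8_ag.TB.C32

/-- Apolarity of two forms. -/
def apol (B S : Form) : ℝ := B.p * S.r - 2 * B.q * S.q + B.r * S.p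

/-- The form of the axis of `g`. -/
noncomputable def SF (g : SLZ) : Form :=
  ⟨(g.1 1 0 : ℝ), ((g.1 1 1 : ℝ) - g.1 0 0) / 2, -(g.1 0 1 : ℝ)⟩

lemma det_eqR (g : SLZ) : (g.1 0 0 : ℝ) * g.1 1 1 - g.1 0 1 * g.1 1 0 = 1 := by
  exact_mod_cast det_eq g

lemma SF_ev (g : SLZ) (a : Cusp) : (SF g).ev a a = (side g a : ℝ) := by
  unfold SF Form.ev side
  push_cast
  ring

lemma apol_act (k : SLZ) (B S : Form) : apol (Form.act k B) (Form.act k S) = apol B S := by
  have hd := det_eqR k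
  unfold apol Form.act
  simp only
  have h2 : ((k.1 0 0 : ℝ) * k.1 1 1 - k.1 0 1 * k.1 1 0) ^ 2 = 1 := by rw [hd]; norm_num
  linear_combination (B.p * S.r - 2 * B.q * S.q + B.r * S.p) * h2

lemma act_SF (k g : SLZ) : Form.act k (SF g) = SF (k * g * k⁻¹) := by
  have hd := det_eqR k
  have e00 : (k * g * k⁻¹).1 0 0 = (k.1 0 0 * g.1 0 0 + k.1 0 1 * g.1 1 0) * k.1 1 1 -
      (k.1 0 0 * g.1 0 1 + k.1 0 1 * g.1 1 1) * k.1 1 0 := by
    simp [Matrix.SpecialLinearGroup.coe_mul, Matrix.mul_apply, Fin.sum_univ_two,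
      Matrix.SpecialLinearGroup.coe_inv, Matrix.adjugate_fin_two]
    ring
  have e01 : (k * g * k⁻¹).1 0 1 = -(k.1 0 0 * g.1 0 0 + k.1 0 1 * g.1 1 0) * k.1 0 1 +
      (k.1 0 0 * g.1 0 1 + k.1 0 1 * g.1 1 1) * k.1 0 0 := by
    simp [Matrix.SpecialLinearGroup.coe_mul, Matrix.mul_apply, Fin.sum_univ_two,
      Matrix.SpecialLinearGroup.coe_inv, Matrix.adjugate_fin_two]
    ring
  have e10 : (k * g * k⁻¹).1 1 0 = (k.1 1 0 * g.1 0 0 + k.1 1 1 * g.1 1 0) * k.1 1 1 -
      (k.1 1 0 * g.1 0 1 + k.1 1 1 * g.1 1 1) * k.1 1 0 := by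
    simp [Matrix.SpecialLinearGroup.coe_mul, Matrix.mul_apply, Fin.sum_univ_two,
      Matrix.SpecialLinearGroup.coe_inv, Matrix.adjugate_fin_two]
    ring
  have e11 : (k * g * k⁻¹).1 1 1 = -(k.1 1 0 * g.1 0 0 + k.1 1 1 * g.1 1 0) * k.1 0 1 +
      (k.1 1 0 * g.1 0 1 + k.1 1 1 * g.1 1 1) * k.1 0 0 := by
    simp [Matrix.SpecialLinearGroup.coe_mul, Matrix.mul_apply, Fin.sum_univ_two,
      Matrix.SpecialLinearGroup.coe_inv, Matrix.adjugate_fin_two]
    ring
  unfold SF Form.act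
  rw [Form.mk.injEq, e00, e01, e10, e11]
  push_cast
  refine ⟨?_, ?_, ?_⟩
  · ring
  · ring
  · ring

/-- Forms orthogonal for two real vectors `u`, `v`: the sign of the value at a strand is determined
by `u` and `v`. -/
lemma sign_key {u1 u2 v1 v2 : ℝ} {B : Form} (hp : 0 < B.p) (hd : B.q ^ 2 < B.p * B.r)
    (h0 : B.p * u1 * v1 + B.q * (u1 * v2 + u2 * v1) + B.r * u2 * v2 = 0)
    (huv : u1 * v2 - u2 * v1 ≠ 0) {c d : Cusp} {A C : ℝ}
    (hA : A = (u1 * c.y - u2 * c.x) * (u1 * d.y - u2 * d.x))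
    (hC : C = (v1 * c.y - v2 * c.x) * (v1 * d.y - v2 * d.x)) (hAC : 0 ≤ A * C)
    (hne : A ≠ 0 ∨ C ≠ 0) : 0 < B.ev c d * (A + C) := by
  have pos : ∀ w1 w2 : ℝ, (w1 ≠ 0 ∨ w2 ≠ 0) →
      0 < B.p * w1 * w1 + B.q * (w1 * w2 + w2 * w1) + B.r * w2 * w2 := by
    intro w1 w2 hw
    have h1 : B.p * (B.p * w1 * w1 + B.q * (w1 * w2 + w2 * w1) + B.r * w2 * w2) =
        (B.p * w1 + B.q * w2) ^ 2 + (B.p * B.r - B.q ^ 2) * w2 ^ 2 := by ring
    have h2 : 0 < (B.p * w1 + B.q * w2) ^ 2 + (B.p * B.r - B.q ^ 2) * w2 ^ 2 := by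
      by_cases hw2 : w2 = 0
      · rw [hw2]
        have hw1 : w1 ≠ 0 := by
          rcases hw with h | h
          · exact h
          · exact absurd hw2 h
        have := mul_pos hp hp
        have h3 : 0 < w1 ^ 2 := by positivity
        have h4 : (B.p * w1 + B.q * 0) ^ 2 = (B.p * B.p) * w1 ^ 2 := by ring
        rw [h4]
        have := mul_pos this h3
        nlinarith
      · have h3 : 0 < w2 ^ 2 := by positivity
        have h4 := mul_pos (sub_pos.2 hd) h3
        have h5 := sq_nonneg (B.p * w1 + B.q * w2)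
        linarith
    rw [← h1] at h2
    exact (mul_pos_iff_of_pos_left hp).1 h2
  have hu : 0 < B.p * u1 * u1 + B.q * (u1 * u2 + u2 * u1) + B.r * u2 * u2 := by
    apply pos
    by_contra hcon
    push Not at hcon
    apply huv
    rw [hcon.1, hcon.2]; ring
  have hv : 0 < B.p * v1 * v1 + B.q * (v1 * v2 + v2 * v1) + B.r * v2 * v2 := by
    apply pos
    by_contra hcon
    push Not at hcon
    apply huv
    rw [hcon.1, hcon.2]; ring
  have key : (u1 * v2 - u2 * v1) ^ 2 * B.ev c d =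
      A * (B.p * v1 * v1 + B.q * (v1 * v2 + v2 * v1) + B.r * v2 * v2) +
      C * (B.p * u1 * u1 + B.q * (u1 * u2 + u2 * u1) + B.r * u2 * u2) := by
    rw [hA, hC]
    unfold Form.ev
    linear_combination (-((u1 * c.y - u2 * c.x) * (v1 * d.y - v2 * d.x) +
      (v1 * c.y - v2 * c.x) * (u1 * d.y - u2 * d.x))) * h0
  have hpos : 0 < (u1 * v2 - u2 * v1) ^ 2 := by positivity
  have h6 : 0 < (u1 * v2 - u2 * v1) ^ 2 * (B.ev c d * (A + C)) := by
    have : (u1 * v2 - u2 * v1) ^ 2 * (B.ev c d * (A + C)) =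
      A ^ 2 * (B.p * v1 * v1 + B.q * (v1 * v2 + v2 * v1) + B.r * v2 * v2) +
      C ^ 2 * (B.p * u1 * u1 + B.q * (u1 * u2 + u2 * u1) + B.r * u2 * u2) +
      A * C * ((B.p * v1 * v1 + B.q * (v1 * v2 + v2 * v1) + B.r * v2 * v2) +
        (B.p * u1 * u1 + B.q * (u1 * u2 + u2 * u1) + B.r * u2 * u2)) := by
      rw [← mul_assoc, key]; ring
    rw [this]
    have t3 := mul_nonneg hAC (le_of_lt (add_pos hv hu))
    rcases hne with h | h
    · have t1 : 0 < A ^ 2 := by positivity
      have t2 := mul_pos t1 hv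
      have t4 := mul_nonneg (sq_nonneg C) (le_of_lt hu)
      linarith
    · have t1 : 0 < C ^ 2 := by positivity
      have t2 := mul_pos t1 hu
      have t4 := mul_nonneg (sq_nonneg A) (le_of_lt hv)
      linarith
  exact (mul_pos_iff_of_pos_left hpos).1 h6

lemma prod_pos_of {x y z : ℝ} (h1 : 0 < x * z) (h2 : 0 < y * z) : 0 < x * y := by
  have h3 := mul_pos h1 h2
  have h4 : x * z * (y * z) = x * y * z ^ 2 := by ring
  rw [h4] at h3
  by_contra hcon
  push Not at hcon
  nlinarith [sq_nonneg z]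

/-- A definite form. -/
def PD (B : Form) : Prop := 0 < B.p ∧ B.q ^ 2 < B.p * B.r

/-- Two definite forms on the axis of `g` are not separated by a strand not crossing the axis. -/
lemma axis_same {g : SLZ} (hg : 2 < |g.1.trace|) {B B' : Form} (hB : PD B) (hB' : PD B')
    (h : apol B (SF g) = 0) (h' : apol B' (SF g) = 0) {c d : Cusp}
    (hcd : 0 < side g c * side g d) : 0 < B.ev c d * B'.ev c d := by
  have ht : g.1.trace = g.1 0 0 + g.1 1 1 := Matrix.trace_fin_two _
  have hdet := det_eqR g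
  set a : ℝ := (g.1 0 0 : ℝ) with ha
  set b : ℝ := (g.1 0 1 : ℝ) with hb
  set γ : ℝ := (g.1 1 0 : ℝ) with hγ
  set δ : ℝ := (g.1 1 1 : ℝ) with hδ
  have htr : (4 : ℝ) < (a + δ) ^ 2 := by
    have h1 : (4 : ℤ) < (g.1 0 0 + g.1 1 1) ^ 2 := by
      rw [← ht, ← sq_abs]; nlinarith
    rw [ha, hδ]
    exact_mod_cast h1
  have hγ0 : γ ≠ 0 := by
    intro h0
    have h1 : g.1 1 0 = 0 := by
      rw [hγ] at h0; exact_mod_cast h0
    have h2 := det_eq g
    rw [h1] at h2
    have h3 : g.1 0 0 * g.1 1 1 = 1 := by linarith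
    have h4 : (4 : ℤ) < (g.1 0 0 + g.1 1 1) ^ 2 := by
      rw [ha, hδ] at htr
      exact_mod_cast htr
    rcases Int.mul_eq_one_iff_eq_one_or_neg_one.1 h3 with ⟨h5, h6⟩ | ⟨h5, h6⟩
    · rw [h5, h6] at h4; norm_num at h4
    · rw [h5, h6] at h4; norm_num at h4
  set s : ℝ := Real.sqrt ((a + δ) ^ 2 - 4) with hs
  have hs2 : s ^ 2 = (a + δ) ^ 2 - 4 := Real.sq_sqrt (by linarith)
  have hspos : 0 < s := Real.sqrt_pos.2 (by linarith)
  have hs3 : s ^ 2 = (a - δ) ^ 2 + 4 * b * γ := by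
    rw [hs2]; linear_combination 4 * hdet
  -- null vectors `((a - δ) ± s, 2 γ)`
  have hside : ∀ z : Cusp, (side g z : ℝ) * (4 * γ) =
      (((a - δ) + s) * z.y - 2 * γ * z.x) * (((a - δ) - s) * z.y - 2 * γ * z.x) := by
    intro z
    unfold side
    push_cast
    rw [← ha, ← hb, ← hγ, ← hδ]
    linear_combination ((z.y : ℝ) ^ 2) * hs3
  have ortho : ∀ B : Form, apol B (SF g) = 0 →
      B.p * ((a - δ) + s) * ((a - δ) - s) + B.q * (((a - δ) + s) * (2 * γ) +
        (2 * γ) * ((a - δ) - s)) + B.r * (2 * γ) * (2 * γ) = 0 := by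
    intro B hB0
    unfold apol SF at hB0
    simp only at hB0
    rw [← ha, ← hb, ← hγ, ← hδ] at hB0
    linear_combination (4 * γ) * hB0 - B.p * hs3
  have huv : ((a - δ) + s) * (2 * γ) - (2 * γ) * ((a - δ) - s) ≠ 0 := by
    have : ((a - δ) + s) * (2 * γ) - (2 * γ) * ((a - δ) - s) = 4 * (γ * s) := by ring
    rw [this]
    exact mul_ne_zero (by norm_num) (mul_ne_zero hγ0 (ne_of_gt hspos))
  have hcdR : (0 : ℝ) < (side g c : ℝ) * side g d := by exact_mod_cast hcd
  set A : ℝ := (((a - δ) + s) * c.y - 2 * γ * c.x) * (((a - δ) + s) * d.y - 2 * γ * d.x) with hA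
  set C : ℝ := (((a - δ) - s) * c.y - 2 * γ * c.x) * (((a - δ) - s) * d.y - 2 * γ * d.x) with hC
  have hAC : 0 < A * C := by
    have : A * C = ((side g c : ℝ) * side g d) * (4 * γ) ^ 2 := by
      have h1 := hside c
      have h2 := hside d
      rw [hA, hC]
      linear_combination (-(side g d : ℝ) * (4 * γ)) * h1 -
        ((((a - δ) + s) * c.y - 2 * γ * c.x) * (((a - δ) - s) * c.y - 2 * γ * c.x)) * h2
    rw [this]
    have h3 : 0 < (4 * γ) ^ 2 := by positivity
    exact mul_pos hcdR h3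
  have hne : A ≠ 0 ∨ C ≠ 0 := by
    left
    intro h0
    rw [h0] at hAC
    simp at hAC
  exact prod_pos_of (sign_key hB.1 hB.2 (ortho B h) huv hA hC (le_of_lt hAC) hne)
    (sign_key hB'.1 hB'.2 (ortho B' h') huv hA hC (le_of_lt hAC) hne)

/-- Two definite forms on the geodesic `xy` are not separated by a strand not crossing it. -/
lemma arc_same {x y : Cusp} (hxy : x ≠ y) {B B' : Form} (hB : PD B) (hB' : PD B')
    (h : B.ev x y = 0) (h' : B'.ev x y = 0) {c d : Cusp} (hcd : ¬ Cross x y c d)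
    (h1 : c ≠ d) (h2 : ¬ (c = x ∧ d = y)) (h3 : ¬ (c = y ∧ d = x)) :
    0 < B.ev c d * B'.ev c d := by
  have huv : (x.x : ℝ) * y.y - x.y * y.x ≠ 0 := by
    have := dt_ne_zero hxy
    unfold dt at this
    exact_mod_cast this
  set A : ℝ := ((x.x : ℝ) * c.y - x.y * c.x) * (x.x * d.y - x.y * d.x) with hA
  set C : ℝ := ((y.x : ℝ) * c.y - y.y * c.x) * (y.x * d.y - y.y * d.x) with hC
  have eA : A = ((dt x c * dt x d : ℤ) : ℝ) := by
    rw [hA]; unfold dt; push_cast; ring
  have eC : C = ((dt y c * dt y d : ℤ) : ℝ) := by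
    rw [hC]; unfold dt; push_cast; ring
  have hAC : 0 ≤ A * C := by
    rw [eA, eC]
    have : 0 ≤ (dt x c * dt y c) * (dt x d * dt y d) := by
      unfold Cross at hcd; push Not at hcd; exact hcd
    have h4 : (0 : ℤ) ≤ (dt x c * dt x d) * (dt y c * dt y d) := by
      have h5 : (dt x c * dt x d) * (dt y c * dt y d) = (dt x c * dt y c) * (dt x d * dt y d) := by
        ring
      rw [h5]; exact this
    exact_mod_cast h4
  have hne : A ≠ 0 ∨ C ≠ 0 := by
    by_contra hcon
    push Not at hcon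
    obtain ⟨a0, c0⟩ := hcon
    rw [eA] at a0
    rw [eC] at c0
    have a1 : dt x c * dt x d = 0 := by exact_mod_cast a0
    have c1 : dt y c * dt y d = 0 := by exact_mod_cast c0
    rcases mul_eq_zero.1 a1 with e1 | e1 <;> rcases mul_eq_zero.1 c1 with e2 | e2 <;>
      rw [dt_eq_zero] at e1 e2
    · exact hxy (e1.trans e2.symm)
    · exact h2 ⟨e1.symm, e2.symm⟩
    · exact h3 ⟨e2.symm, e1.symm⟩
    · exact hxy (e1.trans e2.symm)
  have ortho : ∀ B : Form, B.ev x y = 0 →
      B.p * (x.x : ℝ) * y.x + B.q * ((x.x : ℝ) * y.y + x.y * y.x) + B.r * (x.y : ℝ) * y.y = 0 := by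
    intro B hB0
    unfold Form.ev at hB0
    linear_combination hB0
  exact prod_pos_of (sign_key hB.1 hB.2 (ortho B h) huv hA hC hAC hne)
    (sign_key hB'.1 hB'.2 (ortho B' h') huv hA hC hAC hne)

/-- The intersection point of two crossing axes. -/
lemma exists_meet {g h : SLZ} (hc : AxesCross g h) :
    ∃ B : Form, PD B ∧ apol B (SF g) = 0 ∧ apol B (SF h) = 0 := by
  obtain ⟨⟨a1, h11, h12⟩, ⟨a2, h21, h22⟩, ⟨a3, h31, h32⟩, ⟨a4, h41, h42⟩⟩ := hc
  have r11 : 0 < (SF g).ev a1 a1 := by rw [SF_ev]; exact_mod_cast h11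
  have r12 : 0 < (SF h).ev a1 a1 := by rw [SF_ev]; exact_mod_cast h12
  have r21 : 0 < (SF g).ev a2 a2 := by rw [SF_ev]; exact_mod_cast h21
  have r22 : (SF h).ev a2 a2 < 0 := by rw [SF_ev]; exact_mod_cast h22
  have r31 : (SF g).ev a3 a3 < 0 := by rw [SF_ev]; exact_mod_cast h31
  have r32 : 0 < (SF h).ev a3 a3 := by rw [SF_ev]; exact_mod_cast h32
  have r41 : (SF g).ev a4 a4 < 0 := by rw [SF_ev]; exact_mod_cast h41
  have r42 : (SF h).ev a4 a4 < 0 := by rw [SF_ev]; exact_mod_cast h42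
  generalize hS : SF g = S at *
  generalize hT : SF h = T at *
  -- semidefinite forms
  have semi : ∀ U : Form, U.q ^ 2 ≤ U.p * U.r →
      (∀ a : Cusp, 0 ≤ U.ev a a) ∨ (∀ a : Cusp, U.ev a a ≤ 0) := by
    intro U hU
    rcases lt_trichotomy U.p 0 with hp | hp | hp
    · right
      intro a
      have h1 : U.p * U.ev a a = (U.p * a.x + U.q * a.y) ^ 2 + (U.p * U.r - U.q ^ 2) * a.y ^ 2 := by
        unfold Form.ev; ring
      have h2 : 0 ≤ U.p * U.ev a a := by
        rw [h1]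
        have := mul_nonneg (sub_nonneg.2 hU) (sq_nonneg (a.y : ℝ))
        positivity
      by_contra hcon
      push Not at hcon
      nlinarith
    · have hq : U.q = 0 := by
        rw [hp] at hU
        have : U.q ^ 2 ≤ 0 := by linarith
        nlinarith [sq_nonneg U.q]
      have h1 : ∀ a : Cusp, U.ev a a = U.r * (a.y : ℝ) ^ 2 := by
        intro a; unfold Form.ev; rw [hp, hq]; ring
      rcases le_total 0 U.r with hr | hr
      · left; intro a; rw [h1]; positivity
      · right; intro a; rw [h1]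
        exact mul_nonpos_of_nonpos_of_nonneg hr (sq_nonneg _)
    · left
      intro a
      have h1 : U.p * U.ev a a = (U.p * a.x + U.q * a.y) ^ 2 + (U.p * U.r - U.q ^ 2) * a.y ^ 2 := by
        unfold Form.ev; ring
      have h2 : 0 ≤ U.p * U.ev a a := by
        rw [h1]
        have := mul_nonneg (sub_nonneg.2 hU) (sq_nonneg (a.y : ℝ))
        positivity
      exact nonneg_of_mul_nonneg_right h2 hp
  have hΔT : 0 < T.q ^ 2 - T.p * T.r := by
    by_contra hcon
    push Not at hcon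
    rcases semi T (by linarith) with h1 | h1
    · exact absurd (h1 a2) (not_le.2 r22)
    · exact absurd (h1 a1) (not_le.2 r12)
  -- the discriminant of the bracket
  have hdisc : (S.p * T.r + S.r * T.p - 2 * S.q * T.q) ^ 2 <
      4 * (S.q ^ 2 - S.p * S.r) * (T.q ^ 2 - T.p * T.r) := by
    by_contra hcon
    push Not at hcon
    set m := S.p * T.r + S.r * T.p - 2 * S.q * T.q with hm
    set Δ := T.q ^ 2 - T.p * T.r with hΔ
    -- `U = 2Δ S + m T` is semidefinite
    have hU := semi ⟨2 * Δ * S.p + m * T.p, 2 * Δ * S.q + m * T.q, 2 * Δ * S.r + m * T.r⟩ (by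
      simp only
      have : (2 * Δ * S.p + m * T.p) * (2 * Δ * S.r + m * T.r) - (2 * Δ * S.q + m * T.q) ^ 2 =
        Δ * (m ^ 2 - 4 * (S.q ^ 2 - S.p * S.r) * Δ) := by
        rw [hm, hΔ]; ring
      have h2 : 0 ≤ Δ * (m ^ 2 - 4 * (S.q ^ 2 - S.p * S.r) * Δ) :=
        mul_nonneg (le_of_lt hΔT) (by linarith)
      linarith)
    have ev : ∀ a : Cusp, Form.ev ⟨2 * Δ * S.p + m * T.p, 2 * Δ * S.q + m * T.q,
        2 * Δ * S.r + m * T.r⟩ a a = 2 * Δ * S.ev a a + m * T.ev a a := by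
      intro a; unfold Form.ev; ring
    rcases le_total 0 m with hm0 | hm0
    · rcases hU with h1 | h1
      · have := h1 a4
        rw [ev] at this
        have t1 : 2 * Δ * S.ev a4 a4 < 0 := mul_neg_of_pos_of_neg (by linarith) r41
        have t2 : m * T.ev a4 a4 ≤ 0 := mul_nonpos_of_nonneg_of_nonpos hm0 (le_of_lt r42)
        linarith
      · have := h1 a1
        rw [ev] at this
        have t1 : 0 < 2 * Δ * S.ev a1 a1 := mul_pos (by linarith) r11
        have t2 : 0 ≤ m * T.ev a1 a1 := mul_nonneg hm0 (le_of_lt r12)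
        linarith
    · rcases hU with h1 | h1
      · have := h1 a3
        rw [ev] at this
        have t1 : 2 * Δ * S.ev a3 a3 < 0 := mul_neg_of_pos_of_neg (by linarith) r31
        have t2 : m * T.ev a3 a3 ≤ 0 := mul_nonpos_of_nonpos_of_nonneg hm0 (le_of_lt r32)
        linarith
      · have := h1 a2
        rw [ev] at this
        have t1 : 0 < 2 * Δ * S.ev a2 a2 := mul_pos (by linarith) r21
        have t2 : 0 ≤ m * T.ev a2 a2 := mul_nonneg_of_nonpos_of_nonpos hm0 (le_of_lt r22)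
        linarith
  -- the bracket
  have hJ : (S.p * T.r - T.p * S.r) ^ 2 <
      4 * (S.p * T.q - S.q * T.p) * (S.q * T.r - T.q * S.r) := by nlinarith
  have hPQ : 0 < (S.p * T.q - S.q * T.p) * (S.q * T.r - T.q * S.r) := by
    nlinarith [sq_nonneg (S.p * T.r - T.p * S.r)]
  rcases pos_and_pos_or_neg_and_neg_of_mul_pos hPQ with ⟨h1, h2⟩ | ⟨h1, h2⟩
  · refine ⟨⟨S.p * T.q - S.q * T.p, (S.p * T.r - T.p * S.r) / 2, S.q * T.r - T.q * S.r⟩,
      ⟨h1, by simp only; nlinarith⟩, ?_, ?_⟩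
    · unfold apol; simp only; ring
    · unfold apol; simp only; ring
  · refine ⟨⟨-(S.p * T.q - S.q * T.p), -((S.p * T.r - T.p * S.r) / 2),
      -(S.q * T.r - T.q * S.r)⟩, ⟨by simp only; linarith, by simp only; nlinarith⟩, ?_, ?_⟩
    · unfold apol; simp only; ring
    · unfold apol; simp only; ring

theorem nclg (h1 : FormaStatement) (h2 : ToolStatement) (h3 : NclsepStatement) :
    NclgStatement := by
  intro G hG e he
  obtain ⟨hev, hact, -, hPD, -⟩ := h1
  -- the group of elements which move `B` without crossing `e`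
  have Geinv : ∀ g ∈ G, ∀ c d, Ge G e c d → Ge G e (g • c) (g • d) := by
    rintro g hg c d ⟨p, hp, g', hg', h⟩
    refine ⟨p, hp, g * g', G.mul_mem hg hg', ?_⟩
    rcases h with ⟨h4, h5⟩ | ⟨h4, h5⟩
    · left; rw [mul_smul, mul_smul, h4, h5]; exact ⟨rfl, rfl⟩
    · right; rw [mul_smul, mul_smul, h4, h5]; exact ⟨rfl, rfl⟩
  have move : ∀ g : SLZ, ∀ B B' : Form, ∀ c d, 
      (Form.act g B).ev (g • c) (g • d) * (Form.act g B').ev (g • c) (g • d) =
      B.ev c d * B'.ev c d := by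
    intro g B B' c d
    rw [hev, hev]
    have : ((eps g c * eps g d : ℤ) : ℝ) * ((eps g c * eps g d : ℤ) : ℝ) = 1 := by
      have h4 : (eps g c * eps g d) * (eps g c * eps g d) = 1 := by
        have := eps_sq g c
        have := eps_sq g d
        calc (eps g c * eps g d) * (eps g c * eps g d) =
          (eps g c * eps g c) * (eps g d * eps g d) := by ring
          _ = 1 := by rw [eps_sq, eps_sq]; norm_num
      exact_mod_cast h4
    linear_combination (B.ev c d * B'.ev c d) * this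
  have act_one : ∀ B : Form, Form.act 1 B = B := by
    intro B
    ext <;> simp [Form.act]
  set Q : Form → SLZ → Prop := fun B k => k ∈ G ∧ ∀ c d, Ge G e c d →
    0 < B.ev c d * (Form.act k B).ev c d with hQ
  have Qmul : ∀ B : Form, ∀ k l, Q B k → Q B l → Q B (k * l) := by
    rintro B k l ⟨hk, hk'⟩ ⟨hl, hl'⟩
    refine ⟨G.mul_mem hk hl, fun c d hcd => ?_⟩
    have t1 := hk' c d hcd
    have t2 := hl' _ _ (Geinv k⁻¹ (G.inv_mem hk) c d hcd)
    rw [← move k, smul_inv_smul, smul_inv_smul, hact] at t2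
    rw [mul_comm] at t2
    exact prod_pos_of t1 t2
  have Qinv : ∀ B : Form, ∀ k, Q B k → Q B k⁻¹ := by
    rintro B k ⟨hk, hk'⟩
    refine ⟨G.inv_mem hk, fun c d hcd => ?_⟩
    have t1 := hk' _ _ (Geinv k hk c d hcd)
    rw [← move k⁻¹, inv_smul_smul, inv_smul_smul, hact, inv_mul_cancel, act_one] at t1
    rw [mul_comm]
    exact t1
  have Qncl : ∀ B : Form, PD B → ∀ k, Q B k → 2 < |k.1.trace| → NCL G e k := by
    rintro B hB k ⟨hk, hk'⟩ ht
    refine h3 G hG e he B hB.1 hB.2 ?_ k hk ht ?_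
    · intro c d hcd h0
      have := hk' c d hcd
      rw [h0] at this
      simp at this
    · apply Set.eq_empty_of_forall_notMem
      rintro ⟨c, d⟩ ⟨h4, h5⟩
      exact absurd (hk' c d h4) (not_lt.2 (le_of_lt h5))
  have Qaxis : ∀ B : Form, PD B → ∀ g ∈ G, 2 < |g.1.trace| → NCL G e g → apol B (SF g) = 0 →
      ∀ k ∈ G, apol (Form.act k B) (SF g) = 0 → Q B k := by
    intro B hB g hg ht hn h4 k hk h5
    refine ⟨hk, fun c d hcd => ?_⟩
    exact axis_same ht hB (hPD k B hB.1 hB.2) h4 h5 (hn c d hcd)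
  have apself : ∀ B : Form, ∀ g, apol B (SF g) = 0 → apol (Form.act g B) (SF g) = 0 := by
    intro B g h4
    have h5 : Form.act g (SF g) = SF g := by
      rw [act_SF]
      congr 1
      group
    calc apol (Form.act g B) (SF g) = apol (Form.act g B) (Form.act g (SF g)) := by rw [h5]
      _ = 0 := by rw [apol_act, h4]
  refine ⟨?_, ?_, ?_⟩
  · intro g hg h hh htg hth hng hnh hc
    obtain ⟨B, hB, hBg, hBh⟩ := exists_meet hc
    have q1 : Q B g := Qaxis B hB g hg htg hng hBg g hg (apself B g hBg)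
    have q2 : Q B h := Qaxis B hB h hh hth hnh hBh h hh (apself B h hBh)
    exact ⟨fun ht => Qncl B hB _ (Qmul B _ _ q1 q2) ht,
      fun ht => Qncl B hB _ (Qmul B _ _ q1 (Qinv B _ q2)) ht⟩
  · intro g hg k hk htg hng hc
    obtain ⟨B, hB, hBg, hBk⟩ := exists_meet hc
    have q1 : Q B g := Qaxis B hB g hg htg hng hBg g hg (apself B g hBg)
    have q2 : Q B k⁻¹ := by
      refine Qaxis B hB g hg htg hng hBg k⁻¹ (G.inv_mem hk) ?_
      have h4 : Form.act k⁻¹ (SF (k * g * k⁻¹)) = SF g := by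
        rw [act_SF]
        congr 1
        group
      calc apol (Form.act k⁻¹ B) (SF g) =
          apol (Form.act k⁻¹ B) (Form.act k⁻¹ (SF (k * g * k⁻¹))) := by rw [h4]
        _ = 0 := by rw [apol_act, hBk]
    have q3 : Q B k := by
      have := Qinv B _ q2
      rwa [inv_inv] at this
    exact ⟨fun ht => Qncl B hB _ q3 ht, fun ht => Qncl B hB _ (Qmul B _ _ q3 q1) ht,
      fun ht => Qncl B hB _ (Qmul B _ _ (Qmul B _ _ q3 q3) q1) ht⟩
  · intro g hg x y hxy hc ht
    have hne := hc.ne.1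
    -- the intersection point
    set A : ℝ := (dt x (g • x) : ℝ) * dt x (g • y) with hA
    set C : ℝ := (dt y (g • x) : ℝ) * dt y (g • y) with hC
    have hAC : A * C < 0 := by
      unfold Cross at hc
      have : (((dt x (g • x) * dt y (g • x)) * (dt x (g • y) * dt y (g • y)) : ℤ) : ℝ) < 0 := by
        exact_mod_cast hc
      push_cast at this
      rw [hA, hC]
      linarith
    have hA0 : 0 < |A| := abs_pos.2 (fun h => by rw [h] at hAC; simp at hAC)
    have hC0 : 0 < |C| := abs_pos.2 (fun h => by rw [h] at hAC; simp at hAC)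
    have hd2 : 0 < (dt x y : ℝ) ^ 2 := by
      have : (dt x y : ℝ) ≠ 0 := by exact_mod_cast dt_ne_zero hne
      positivity
    set B : Form := ⟨|C| * (x.y : ℝ) ^ 2 + |A| * (y.y : ℝ) ^ 2,
      -(|C| * ((x.x : ℝ) * x.y)) - |A| * ((y.x : ℝ) * y.y),
      |C| * (x.x : ℝ) ^ 2 + |A| * (y.x : ℝ) ^ 2⟩ with hB
    have hBev : ∀ c d : Cusp, B.ev c d = |C| * ((dt x c : ℝ) * dt x d) +
        |A| * ((dt y c : ℝ) * dt y d) := by
      intro c d
      rw [hB]; unfold Form.ev dt; push_cast; ring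
    have hBd : B.p * B.r - B.q ^ 2 = |A| * |C| * (dt x y : ℝ) ^ 2 := by
      rw [hB]; unfold dt; push_cast; ring
    have hBPD : PD B := by
      have hd : B.q ^ 2 < B.p * B.r := by
        have := mul_pos (mul_pos hA0 hC0) hd2
        linarith
      refine ⟨?_, hd⟩
      have h5 : 0 ≤ B.p := by
        rw [hB]; simp only; positivity
      rcases lt_or_eq_of_le h5 with h6 | h6
      · exact h6
      · exfalso
        rw [← h6] at hd
        nlinarith [sq_nonneg B.q]
    have hB1 : B.ev x y = 0 := by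
      rw [hBev, dt_self, dt_self]; push_cast; ring
    have hB2 : B.ev (g • x) (g • y) = 0 := by
      rw [hBev, ← hA, ← hC]
      rcases lt_or_gt_of_ne (show A ≠ 0 from fun h => by rw [h] at hAC; simp at hAC) with h6 | h6
      · have h7 : 0 < C := by
          by_contra hcon
          push Not at hcon
          exact absurd hAC (not_lt.2 (mul_nonneg_of_nonpos_of_nonpos (le_of_lt h6) hcon))
        rw [abs_of_neg h6, abs_of_pos h7]; ring
      · have h7 : C < 0 := by
          by_contra hcon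
          push Not at hcon
          exact absurd hAC (not_lt.2 (mul_nonneg (le_of_lt h6) hcon))
        rw [abs_of_pos h6, abs_of_neg h7]; ring
    have hB3 : (Form.act g⁻¹ B).ev x y = 0 := by
      have h6 := hev g⁻¹ B (g • x) (g • y)
      rw [inv_smul_smul, inv_smul_smul, hB2, mul_zero] at h6
      exact h6
    have hnot : ¬ Ge G e x y := by
      intro h6
      exact (h2 G hG e he).2.2.1 x y h6 _ _ (Geinv g hg x y h6) hc
    have q : Q B g⁻¹ := by
      refine ⟨G.inv_mem hg, fun c d hcd => ?_⟩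
      refine arc_same hne hBPD (hPD g⁻¹ B hBPD.1 hBPD.2) hB1 hB3 (hxy c d hcd) ?_ ?_ ?_
      · obtain ⟨p, hp, g', hg', h⟩ := hcd
        have h8 := (he p hp).1.1
        rcases h with ⟨h4, h5⟩ | ⟨h4, h5⟩
        · rw [← h4, ← h5]; exact fun h9 => h8 (MulAction.injective g' h9)
        · rw [← h4, ← h5]; exact fun h9 => h8 (MulAction.injective g' h9).symm
      · rintro ⟨rfl, rfl⟩; exact hnot hcd
      · rintro ⟨rfl, rfl⟩
        apply hnot
        obtain ⟨p, hp, g', hg', h⟩ := hcd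
        exact ⟨p, hp, g', hg', h.symm.imp (fun h => ⟨h.1, h.2⟩) (fun h => ⟨h.1, h.2⟩)⟩
    have q' : Q B g := by
      have := Qinv B _ q
      rwa [inv_inv] at this
    exact Qncl B hBPD _ q' ht

end Pool.Agent.Lib.MP_eee7a8_ag.TB.C32
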