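import Pool.Agent.Lib.MP_eee7a8_ag.TB.Iface4

/-!
# Module PRIMR: primitive roots
-/

set_option linter.all false

open Matrix

namespace Pool.Agent.Lib.MP_eee7a8_ag.TB.C32

/-- Chebyshev polynomials of the second kind (shifted): `0, 1, t, t ^ 2 - 1, ...` -/
def uu (t : ℤ) : ℕ → ℤ
  | 0 => 0
  | 1 => 1
  | (k + 2) => t * uu t (k + 1) - uu t k

/-- Chebyshev polynomials of the first kind: `2, t, t ^ 2 - 2, ...` -/
def tt (t : ℤ) : ℕ → ℤ
  | 0 => 2
  | 1 => t
  | (k + 2) => t * tt t (k + 1) - tt t k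

lemma sq_eq (g : SLZ) : g.1 * g.1 = g.1.trace • g.1 - 1 := by
  have hd := det_eq g
  ext i j
  fin_cases i <;> fin_cases j <;>
    simp [-zsmul_eq_mul, Matrix.mul_apply, Fin.sum_univ_two, Matrix.trace_fin_two,
      Matrix.smul_apply] <;> linarith

lemma pow_eq (g : SLZ) (n : ℕ) :
    (g ^ (n + 1)).1 = uu g.1.trace (n + 1) • g.1 - uu g.1.trace n • (1 : Matrix _ _ ℤ) := by
  induction n with
  | zero => simp [uu]
  | succ n ih =>
    have h1 : (g ^ (n + 1 + 1)).1 = (g ^ (n + 1)).1 * g.1 := by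
      rw [pow_succ]
      rfl
    rw [h1, ih, sub_mul, smul_mul_assoc, smul_mul_assoc, one_mul, sq_eq]
    show _ = (g.1.trace * uu g.1.trace (n + 1) - uu g.1.trace n) • g.1 - _
    rw [smul_sub, sub_smul, smul_smul, mul_comm (uu g.1.trace (n + 1))]
    abel

lemma side_lin (g h : SLZ) (c d : ℤ) (e : g.1 = c • h.1 - d • (1 : Matrix _ _ ℤ)) (a : Cusp) :
    side g a = c * side h a := by
  unfold side
  rw [e]
  simp only [Matrix.sub_apply, Matrix.smul_apply, Matrix.one_apply, smul_eq_mul]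
  simp
  ring

lemma side_neg (g : SLZ) (a : Cusp) : side (-g) a = - side g a := by
  unfold side
  simp
  ring

lemma trace_pow (g : SLZ) (n : ℕ) : (g ^ n).1.trace = tt g.1.trace n := by
  induction n using Nat.strong_induction_on with
  | _ n ih =>
    match n, ih with
    | 0, _ => simp [tt, Matrix.trace_fin_two]
    | 1, _ => simp [tt]
    | (m + 2), ih =>
      have h1 : (g ^ (m + 2)).1 = (g ^ m).1 * (g.1 * g.1) := by
        rw [pow_add, pow_two]
        rfl
      rw [h1, sq_eq, mul_sub, mul_one, Matrix.trace_sub, Matrix.mul_smul, Matrix.trace_smul]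
      have h2 : (g ^ m).1 * g.1 = (g ^ (m + 1)).1 := by
        rw [pow_succ]
        rfl
      rw [h2, ih m (by omega), ih (m + 1) (by omega)]
      show _ = g.1.trace * tt g.1.trace (m + 1) - tt g.1.trace m
      rw [smul_eq_mul]

lemma tt_mono {t : ℤ} (ht : 2 < |t|) (n : ℕ) : |tt t n| < |tt t (n + 1)| := by
  induction n with
  | zero => simpa [tt] using ht
  | succ n ih =>
    show |tt t (n + 1)| < |t * tt t (n + 1) - tt t n|
    have h1 : |t * tt t (n + 1)| - |tt t n| ≤ |t * tt t (n + 1) - tt t n| :=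
      abs_sub_abs_le_abs_sub _ _
    rw [abs_mul] at h1
    nlinarith [abs_nonneg (tt t (n + 1)), abs_nonneg (tt t n)]

lemma tt_lt {t : ℤ} (ht : 2 < |t|) {n : ℕ} (hn : 2 ≤ n) : |t| < |tt t n| := by
  obtain ⟨m, rfl⟩ : ∃ m, n = m + 2 := ⟨n - 2, by omega⟩
  induction m with
  | zero => simpa [tt] using tt_mono ht 1
  | succ m ih => exact (ih (by omega)).trans (tt_mono ht (m + 2))

lemma uu_mono {t : ℤ} (ht : 2 < |t|) (n : ℕ) : |uu t n| < |uu t (n + 1)| := by
  induction n with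
  | zero => simp [uu]
  | succ n ih =>
    show |uu t (n + 1)| < |t * uu t (n + 1) - uu t n|
    have h1 : |t * uu t (n + 1)| - |uu t n| ≤ |t * uu t (n + 1) - uu t n| :=
      abs_sub_abs_le_abs_sub _ _
    rw [abs_mul] at h1
    nlinarith [abs_nonneg (uu t (n + 1)), abs_nonneg (uu t n)]

lemma uu_ne {t : ℤ} (ht : 2 < |t|) {n : ℕ} (hn : 1 ≤ n) : uu t n ≠ 0 := by
  obtain ⟨m, rfl⟩ : ∃ m, n = m + 1 := ⟨n - 1, by omega⟩
  have := uu_mono ht m
  intro h
  rw [h, abs_zero] at this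
  exact absurd this (not_lt.mpr (abs_nonneg _))

lemma tt_two {t : ℤ} (ht : |t| = 2) (n : ℕ) : |tt t n| = 2 := by
  rcases (abs_eq (by norm_num)).mp ht with h | h
  · subst h
    have : ∀ n, tt 2 n = 2 ∧ tt 2 (n + 1) = 2 := by
      intro n
      induction n with
      | zero => simp [tt]
      | succ n ih =>
        refine ⟨ih.2, ?_⟩
        show 2 * tt 2 (n + 1) - tt 2 n = 2
        rw [ih.1, ih.2]; norm_num
    rw [(this n).1]; norm_num
  · subst h
    have : ∀ n, (tt (-2) n = 2 ∧ tt (-2) (n + 1) = -2) ∨ (tt (-2) n = -2 ∧ tt (-2) (n + 1) = 2) := by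
      intro n
      induction n with
      | zero => left; simp [tt]
      | succ n ih =>
        rcases ih with ih | ih
        · right
          refine ⟨ih.2, ?_⟩
          show -2 * tt (-2) (n + 1) - tt (-2) n = 2
          rw [ih.1, ih.2]; norm_num
        · left
          refine ⟨ih.2, ?_⟩
          show -2 * tt (-2) (n + 1) - tt (-2) n = -2
          rw [ih.1, ih.2]; norm_num
    rcases this n with h | h <;> rw [h.1] <;> norm_num

lemma trace_neg (g : SLZ) : (-g).1.trace = - g.1.trace := by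
  simp

/-- sides of a power -/
lemma side_pow {l : SLZ} (hl : 2 < |l.1.trace|) {m : ℕ} (hm : 1 ≤ m) {h : SLZ}
    (hh : h = l ^ m ∨ h = -l ^ m) : ∃ c : ℤ, c ≠ 0 ∧ ∀ a, side h a = c * side l a := by
  obtain ⟨n, rfl⟩ : ∃ n, m = n + 1 := ⟨m - 1, by omega⟩
  have h1 : ∀ a, side (l ^ (n + 1)) a = uu l.1.trace (n + 1) * side l a := fun a =>
    side_lin _ _ _ _ (pow_eq l n) a
  have h2 := uu_ne hl hm
  rcases hh with hh | hh
  · exact ⟨_, h2, fun a => by rw [hh]; exact h1 a⟩
  · exact ⟨-uu l.1.trace (n + 1), neg_ne_zero.mpr h2, fun a => by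
      rw [hh, side_neg, h1]; ring⟩

lemma side_prod_neg {h l : SLZ} {c : ℤ} (hc : c ≠ 0) (hs : ∀ a, side h a = c * side l a)
    (a b : Cusp) : side h a * side h b < 0 ↔ side l a * side l b < 0 := by
  rw [hs, hs, show c * side l a * (c * side l b) = (c * c) * (side l a * side l b) by ring]
  have : 0 < c * c := mul_self_pos.mpr hc
  constructor
  · intro h
    nlinarith
  · intro h
    exact mul_neg_of_pos_of_neg this h

lemma axes_of_side {h l : SLZ} {c : ℤ} (hc : c ≠ 0) (hs : ∀ a, side h a = c * side l a)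
    (k : SLZ) : (AxesCross h k ↔ AxesCross l k) ∧ (AxesCross k h ↔ AxesCross k l) := by
  unfold AxesCross
  simp only [hs]
  rcases lt_or_gt_of_ne hc with hc' | hc'
  · have e1 : ∀ a, (0 < c * side l a ↔ side l a < 0) := fun a =>
      ⟨fun h => by nlinarith, fun h => mul_pos_of_neg_of_neg hc' h⟩
    have e2 : ∀ a, (c * side l a < 0 ↔ 0 < side l a) := fun a =>
      ⟨fun h => by nlinarith, fun h => mul_neg_of_neg_of_pos hc' h⟩
    simp only [e1, e2]
    constructor <;> constructor <;> (rintro ⟨h1, h2, h3, h4⟩) <;> tauto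
  · have e1 : ∀ a, (0 < c * side l a ↔ 0 < side l a) := fun a =>
      ⟨fun h => by nlinarith, fun h => mul_pos hc' h⟩
    have e2 : ∀ a, (c * side l a < 0 ↔ side l a < 0) := fun a =>
      ⟨fun h => by nlinarith, fun h => mul_neg_of_pos_of_neg hc' h⟩
    simp only [e1, e2, and_self]

/-- composition of signed powers -/
lemma signed_pow {l k h : SLZ} {n m : ℕ} (h1 : l = k ^ n ∨ l = -k ^ n)
    (h2 : h = l ^ m ∨ h = -l ^ m) : h = k ^ (n * m) ∨ h = -k ^ (n * m) := by
  have h3 : l ^ m = k ^ (n * m) ∨ l ^ m = -k ^ (n * m) := by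
    rcases h1 with h1 | h1
    · left; rw [h1, pow_mul]
    · rw [h1, pow_mul]
      rcases Nat.even_or_odd m with hm | hm
      · left; rw [Even.neg_pow hm]
      · right; rw [Odd.neg_pow hm]
  rcases h2 with h2 | h2 <;> rcases h3 with h3 | h3 <;> rw [h2, h3] <;> simp

lemma abs_trace_signed {l k : SLZ} {n : ℕ} (h1 : l = k ^ n ∨ l = -k ^ n) :
    |l.1.trace| = |tt k.1.trace n| := by
  rcases h1 with h1 | h1
  · rw [h1, trace_pow]
  · rw [h1, trace_neg, abs_neg, trace_pow]

theorem primr : PrimrStatement := by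
  intro G hG h hh hhyp
  -- the set of absolute traces of roots
  let S : Set ℕ := {N | ∃ l ∈ G, (∃ m : ℕ, 1 ≤ m ∧ (h = l ^ m ∨ h = -l ^ m)) ∧
    2 < |l.1.trace| ∧ N = (|l.1.trace|).toNat}
  have hS : S.Nonempty := ⟨_, h, hh, ⟨1, le_rfl, by simp⟩, hhyp, rfl⟩
  obtain ⟨l, hl, ⟨m, hm, hlm⟩, hl2, hN⟩ := Nat.sInf_mem hS
  obtain ⟨c, hc, hs⟩ := side_pow hl2 hm hlm
  refine ⟨l, hl, m, hm, hl2, hlm, ?_, side_prod_neg hc hs, fun k => (axes_of_side hc hs k).1,
    fun k => (axes_of_side hc hs k).2⟩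
  intro k hk n hkn
  have htr := abs_trace_signed hkn
  have hk2 : 2 < |k.1.trace| := by
    by_contra hcon
    have h1 := hG.tor k hk
    have h2 : |k.1.trace| = 2 := by omega
    rw [tt_two h2] at htr
    omega
  by_contra hn
  rcases Nat.lt_or_ge n 1 with h0 | h0
  · have : n = 0 := by omega
    subst this
    simp [tt] at htr
    omega
  · have h2 : 2 ≤ n := by omega
    have h3 := tt_lt hk2 h2
    rw [← htr] at h3
    have h4 : (|k.1.trace|).toNat ∈ S :=
      ⟨k, hk, ⟨n * m, Nat.mul_pos (by omega) hm, signed_pow hkn hlm⟩, hk2, rfl⟩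
    have h5 := Nat.sInf_le h4
    rw [hN] at h5
    omega

end Pool.Agent.Lib.MP_eee7a8_ag.TB.C32
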