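import Pool.Agent.Lib.MP_eee7a8_ag.TB.C32.Primr

/-!
# Module SKN: words without crossings are systems
-/

set_option linter.all false

open Matrix

namespace Pool.Agent.Lib.MP_eee7a8_ag.TB.C32

lemma side_ne_zero {h : SLZ} (hh : 2 < |h.1.trace|) (a : Cusp) : side h a ≠ 0 := by
  intro h0
  have e : a.x * (h.1 1 0 * a.x + h.1 1 1 * a.y) - a.y * (h.1 0 0 * a.x + h.1 0 1 * a.y) = 0 := h0
  have hd := det_eq h
  have ht : h.1.trace = h.1 0 0 + h.1 1 1 := Matrix.trace_fin_two _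
  rcases prim_eq a.cop (Cusp.cop_smul h a) e with ⟨h1, h2⟩ | ⟨h1, h2⟩
  · have h3 : h.1.trace = 2 := by
      rw [ht]
      rcases a.ne_zero with hx | hx
      · apply mul_left_cancel₀ hx
        linear_combination (-(h.1 1 1) + 1) * h1 + h.1 0 1 * h2 + (-1 : ℤ) * 0 - a.x * hd * (-1)
      · apply mul_left_cancel₀ hx
        linear_combination (-(h.1 0 0) + 1) * h2 + h.1 1 0 * h1 + a.y * hd
    rw [h3] at hh
    norm_num at hh
  · have h3 : h.1.trace = -2 := by
      rw [ht]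
      rcases a.ne_zero with hx | hx
      · apply mul_left_cancel₀ hx
        linear_combination (h.1 1 1 + 1) * h1 - h.1 0 1 * h2 - a.x * hd
      · apply mul_left_cancel₀ hx
        linear_combination (h.1 0 0 + 1) * h2 - h.1 1 0 * h1 - a.y * hd
    rw [h3] at hh
    norm_num at hh

/-- conjugation of signed powers -/
lemma conj_signed (g : SLZ) {l h : SLZ} {m : ℕ} (h1 : h = l ^ m ∨ h = -l ^ m) :
    g * h * g⁻¹ = (g * l * g⁻¹) ^ m ∨ g * h * g⁻¹ = -(g * l * g⁻¹) ^ m := by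
  rcases h1 with h1 | h1
  · left; rw [h1, conj_pow]
  · right; rw [h1, conj_pow]; simp

lemma trace_conj (g l : SLZ) : (g * l * g⁻¹).1.trace = l.1.trace := by
  have h1 : (g * l * g⁻¹).1 = g.1 * l.1 * (g⁻¹).1 := rfl
  rw [h1, Matrix.trace_mul_comm, ← mul_assoc]
  have h2 : (g⁻¹).1 * g.1 = 1 := by
    have : (g⁻¹ * g).1 = 1 := by rw [inv_mul_cancel]; rfl
    exact this
  rw [h2, one_mul]

theorem skn (hP : PrimrStatement) (hT : TraceStatement) : SknStatement := by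
  intro G hG e he w hw haa hah hhh hpair
  have hex : ∀ h ∈ w.els, ∃ q : SLZ × ℕ, q.1 ∈ G ∧ 1 ≤ q.2 ∧ 2 < |q.1.1.trace| ∧
      (h = q.1 ^ q.2 ∨ h = -q.1 ^ q.2) ∧
      (∀ k ∈ G, ∀ n : ℕ, (q.1 = k ^ n ∨ q.1 = -k ^ n) → n = 1) := by
    intro h hh
    obtain ⟨h1, h2⟩ := hw.mem h hh
    obtain ⟨l, hl, m, hm, hl2, hlm, hpr, -⟩ := hP G hG h h1 h2
    exact ⟨(l, m), hl, hm, hl2, hlm, hpr⟩
  choose! f hf using hex
  have haxes : ∀ h ∈ w.els, ∀ k ∈ w.els, ∀ g ∈ G, ¬ AxesCross (f h).1 (g * (f k).1 * g⁻¹) := by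
    intro h hh k hk g hg hcon
    obtain ⟨-, hm, hl2, hlm, -⟩ := hf h hh
    obtain ⟨-, hn, hk2, hkn, -⟩ := hf k hk
    obtain ⟨c, hc, hs⟩ := side_pow hl2 hm hlm
    have hk2' : 2 < |(g * (f k).1 * g⁻¹).1.trace| := by rw [trace_conj]; exact hk2
    obtain ⟨d, hd, hs'⟩ := side_pow hk2' hn (conj_signed g hkn)
    apply hhh h hh k hk g hg
    rw [(axes_of_side hc hs _).1, (axes_of_side hd hs' _).2]
    exact hcon
  refine ⟨⟨w.arcs, w.els.map f, hw.ne, haa, ?_, ?_, ?_⟩, ⟨hw.nc, ?_⟩, ?_⟩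
  · intro q hq
    obtain ⟨h, hh, rfl⟩ := List.mem_map.mp hq
    obtain ⟨hl, hm, hl2, hlm, hpr⟩ := hf h hh
    exact ⟨⟨hl, hl2, hpr, fun g hg => haxes h hh h hh g hg⟩, hm⟩
  · intro q hq p hp g hg
    obtain ⟨h, hh, rfl⟩ := List.mem_map.mp hq
    obtain ⟨hl, hm, hl2, hlm, hpr⟩ := hf h hh
    obtain ⟨c, hc, hs⟩ := side_pow hl2 hm hlm
    have h1 := hah p hp h hh g hg
    rw [side_prod_neg hc hs, not_lt] at h1
    exact lt_of_le_of_ne h1 (mul_ne_zero (side_ne_zero hl2 _) (side_ne_zero hl2 _)).symm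
  · rw [List.pairwise_map]
    refine List.Pairwise.imp_of_mem ?_ hpair
    intro h k hh hk hhk g hg
    obtain ⟨hl, hm, hl2, hlm, hpr⟩ := hf h hh
    obtain ⟨hl', hn, hk2, hkn, hpr'⟩ := hf k hk
    have h1 := hhk (f h).1 hl g hg (f h).2 (f k).2 hm hn
    have h2 := conj_signed g hkn
    refine ⟨haxes h hh k hk g hg, ?_, ?_, ?_, ?_⟩
    · intro h3
      rw [h3] at h2
      exact h1 ⟨hlm, h2.elim (fun h => Or.inl h) fun h => Or.inr (Or.inl h)⟩
    · intro h3
      rw [h3] at h2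
      apply h1 ⟨hlm, ?_⟩
      rcases Nat.even_or_odd (f k).2 with he' | he'
      · rw [Even.neg_pow he'] at h2
        exact h2.elim (fun h => Or.inl h) fun h => Or.inr (Or.inl h)
      · rw [Odd.neg_pow he', neg_neg] at h2
        exact h2.elim (fun h => Or.inr (Or.inl h)) fun h => Or.inl h
    · intro h3
      rw [h3] at h2
      exact h1 ⟨hlm, h2.elim (fun h => Or.inr (Or.inr (Or.inl h)))
        fun h => Or.inr (Or.inr (Or.inr h))⟩
    · intro h3
      rw [h3] at h2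
      apply h1 ⟨hlm, ?_⟩
      rcases Nat.even_or_odd (f k).2 with he' | he'
      · rw [Even.neg_pow he'] at h2
        exact h2.elim (fun h => Or.inr (Or.inr (Or.inl h)))
          fun h => Or.inr (Or.inr (Or.inr h))
      · rw [Odd.neg_pow he', neg_neg] at h2
        exact h2.elim (fun h => Or.inr (Or.inr (Or.inr h)))
          fun h => Or.inr (Or.inr (Or.inl h))
  · intro q hq c d hcd
    obtain ⟨h, hh, rfl⟩ := List.mem_map.mp hq
    obtain ⟨hl, hm, hl2, hlm, hpr⟩ := hf h hh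
    obtain ⟨c', hc, hs⟩ := side_pow hl2 hm hlm
    have h1 := hw.ncl h hh c d hcd
    rw [hs, hs, show c' * side (f h).1 c * (c' * side (f h).1 d) =
      (c' * c') * (side (f h).1 c * side (f h).1 d) by ring] at h1
    exact (pos_iff_pos_of_mul_pos h1).mp (mul_self_pos.mpr hc)
  · intro K _ _ L
    show (w.arcs.map (fun p => L.lam p.1 p.2)).prod * (w.els.map L.tr).prod =
      (w.arcs.map (fun p => L.lam p.1 p.2)).prod *
        ((w.els.map f).map (fun l => tk (L.tr l.1) l.2)).prod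
    rw [List.map_map]
    congr 2
    apply List.map_congr_left
    intro h hh
    obtain ⟨hl, hm, hl2, hlm, hpr⟩ := hf h hh
    obtain ⟨-, -, h3, -, -⟩ := hT G K L hG (f h).1 hl hl2
    have h4 := h3 (f h).2 hm
    show L.tr h = tk (L.tr (f h).1) (f h).2
    rw [← h4]
    rcases hlm with h5 | h5
    · exact congrArg L.tr h5
    · have hmem : (f h).1 ^ (f h).2 ∈ G := G.pow_mem hl _
      have htr : 2 < |((f h).1 ^ (f h).2).1.trace| := by
        have h6 := (hw.mem h hh).2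
        rw [h5, trace_neg, abs_neg] at h6
        exact h6
      obtain ⟨-, -, -, -, h7, -⟩ := hT G K L hG _ hmem htr
      rw [← h7]
      exact congrArg L.tr h5

end Pool.Agent.Lib.MP_eee7a8_ag.TB.C32
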